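import Mathlib

/-!
# A set of positive and finite `(d-1)`-dimensional measure with limited tube occupancy

For every `d ≥ 2` we construct a compact set `K ⊆ ℝ^d` with `0 < H^{d-1}(K) < ∞` such that for
every `s < d - 1` one has `H^{d-1}(K ∩ T) ≤ C_s w(T)^s` for all tubes `T`.

Construction. Put `D = d - 1`. At stage `n` every cube of side `δ_n` is divided into `N^d` cubes,
`N = 2^(m_n)`, `m_n = m₀ + 1 + n`, and `N^D` of them are kept, namely those lying on the graph of a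
function `ψ_n : [N]^D → [N]`. An exponential moment estimate (a union bound over the `N^(2d)` segments
between grid points) shows that `ψ_n` can be chosen so that every line comes within distance `2` of
at most `m_n` points of its graph. So a tube of width at most `δ_n` meets at most
`m_0 m_1 ⋯ m_(n-1)` cubes of level `n`, which is `δ_n^{-o(1)}`. The projection of `K` to `ℝ^D` covers
the unit cube, so that the measure of `K` is positive, and the natural covers give the upper bounds.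
-/

set_option autoImplicit false

open Finset

namespace Pool.Agent.Results.MP_e5cefd_an.TubeSet

/-- The tube of width `w` around the line `{a + t v : t ∈ ℝ}`: all points at distance at most `w/2`
from this line. -/
def tube {d : ℕ} (a v : EuclideanSpace ℝ (Fin d)) (w : ℝ) : Set (EuclideanSpace ℝ (Fin d)) :=
  {x | Metric.infDist x (Set.range fun t : ℝ => a + t • v) ≤ w / 2}

/-- Exponential moment bound for the number of maps `U → V` whose graph meets `S` in at least `k`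
points. -/
theorem count_bad {U V : Type*} [Fintype U] [DecidableEq U] [Fintype V] [DecidableEq V] [Nonempty V]
    (S : Finset (U × V)) (k : ℕ) (lam : ℝ) (hlam : 0 ≤ lam) :
    ((univ.filter (fun φ : U → V => k ≤ (univ.filter (fun u => (u, φ u) ∈ S)).card)).card : ℝ) *
      (1 + lam) ^ k ≤
      (Fintype.card V : ℝ) ^ (Fintype.card U) * Real.exp (lam * S.card / Fintype.card V) := by
  classical
  set g : U → V → ℝ := fun u v => if (u, v) ∈ S then 1 + lam else 1 with hg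
  have hN : (0:ℝ) < Fintype.card V := by exact_mod_cast Fintype.card_pos
  have h1 : ∀ φ : U → V, ∏ u, g u (φ u) = (1 + lam) ^ (univ.filter (fun u => (u, φ u) ∈ S)).card := by
    intro φ
    rw [hg]
    simp only []
    rw [Finset.prod_ite, Finset.prod_const, Finset.prod_const, one_pow, mul_one]
  have h2 : ∑ φ : U → V, ∏ u, g u (φ u) = ∏ u, ∑ v, g u v := by
    rw [Finset.prod_univ_sum]
    simp
  have h3 : ∀ u, ∑ v, g u v = Fintype.card V + lam * (univ.filter (fun v => (u, v) ∈ S)).card := by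
    intro u
    have : ∀ v, g u v = 1 + (if (u, v) ∈ S then lam else 0) := by
      intro v
      rw [hg]
      simp only []
      split_ifs <;> ring
    rw [Finset.sum_congr rfl (fun v _ => this v), Finset.sum_add_distrib, ← Finset.sum_filter]
    simp
    ring
  have h4 : ∀ u, ∑ v, g u v ≤ (Fintype.card V : ℝ) *
      Real.exp (lam * (univ.filter (fun v => (u, v) ∈ S)).card / Fintype.card V) := by
    intro u
    rw [h3 u]
    have := Real.add_one_le_exp (lam * (univ.filter (fun v => (u, v) ∈ S)).card / Fintype.card V)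
    have h5 := mul_le_mul_of_nonneg_left this hN.le
    refine le_trans (le_of_eq ?_) h5
    field_simp
    ring
  have h5 : ∑ u, ((univ.filter (fun v => (u, v) ∈ S)).card : ℝ) = S.card := by
    have : S.card = ∑ u, (univ.filter (fun v => (u, v) ∈ S)).card := by
      have h6 : S = univ.filter (fun p : U × V => p ∈ S) := by ext; simp
      calc S.card = ∑ p : U × V, if p ∈ S then 1 else 0 := by simp
        _ = ∑ u, ∑ v, if (u, v) ∈ S then 1 else 0 := by rw [Fintype.sum_prod_type]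
        _ = _ := by
          apply Finset.sum_congr rfl
          intro u _
          simp
    rw [this]
    push_cast
    rfl
  calc ((univ.filter (fun φ : U → V => k ≤ (univ.filter (fun u => (u, φ u) ∈ S)).card)).card : ℝ) *
      (1 + lam) ^ k
      = ∑ φ ∈ univ.filter (fun φ : U → V => k ≤ (univ.filter (fun u => (u, φ u) ∈ S)).card),
          (1 + lam) ^ k := by rw [Finset.sum_const, nsmul_eq_mul]
    _ ≤ ∑ φ ∈ univ.filter (fun φ : U → V => k ≤ (univ.filter (fun u => (u, φ u) ∈ S)).card),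
          ∏ u, g u (φ u) := by
        apply Finset.sum_le_sum
        intro φ hφ
        rw [h1]
        exact pow_le_pow_right₀ (by linarith) (Finset.mem_filter.1 hφ).2
    _ ≤ ∑ φ : U → V, ∏ u, g u (φ u) := by
        apply Finset.sum_le_sum_of_subset_of_nonneg (Finset.filter_subset _ _)
        intro φ _ _
        rw [h1]
        positivity
    _ = ∏ u, ∑ v, g u v := h2
    _ ≤ ∏ u, ((Fintype.card V : ℝ) *
      Real.exp (lam * (univ.filter (fun v => (u, v) ∈ S)).card / Fintype.card V)) := by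
        apply Finset.prod_le_prod
        · intro u _
          rw [h3]
          positivity
        · intro u _
          exact h4 u
    _ = (Fintype.card V : ℝ) ^ (Fintype.card U) * Real.exp (lam * S.card / Fintype.card V) := by
        rw [Finset.prod_mul_distrib, Finset.prod_const, ← Real.exp_sum, Finset.card_univ]
        congr 2
        rw [← Finset.sum_div, ← Finset.mul_sum, h5]

/-- the integer point over `u` with last coordinate `h` -/
def pt {D : ℕ} (u : Fin D → ℕ) (h : ℕ) : Fin (D + 1) → ℕ := Fin.snoc (α := fun _ => ℕ) u h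

theorem pt_castSucc {D : ℕ} (u : Fin D → ℕ) (h : ℕ) (i : Fin D) : pt u h i.castSucc = u i := by
  simp [pt]

theorem pt_last {D : ℕ} (u : Fin D → ℕ) (h : ℕ) : pt u h (Fin.last D) = h := by
  simp [pt]

/-- the number of naturals within `5` of a real is at most `11` -/
theorem card_Icc_le (x : ℝ) : (Finset.Icc ⌈x - 5⌉₊ ⌊x + 5⌋₊).card ≤ 11 := by
  rw [Nat.card_Icc]
  have h1 : ⌊x + 5⌋₊ ≤ 10 + ⌈x - 5⌉₊ := by
    apply Nat.floor_le_of_le
    push_cast
    have := Nat.le_ceil (x - 5)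
    linarith
  omega

/-- integer points of the box close to a segment are few -/
theorem card_near_segment {d N : ℕ} (hN : 1 ≤ N) (p q : Fin d → ℝ)
    (hp : ∀ j, 0 ≤ p j ∧ p j ≤ N) (hq : ∀ j, 0 ≤ q j ∧ q j ≤ N) (S : Finset (Fin d → ℕ))
    (hS : ∀ z ∈ S, ∃ θ : ℝ, 0 ≤ θ ∧ θ ≤ 1 ∧ ∀ j, |(z j : ℝ) - ((1 - θ) * p j + θ * q j)| ≤ 4) :
    S.card ≤ (N + 1) * 11 ^ d := by
  classical
  set c : ℕ → Fin d → ℝ := fun i j => (1 - (i:ℝ) / N) * p j + ((i:ℝ) / N) * q j with hc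
  have hsub : S ⊆ (Finset.range (N + 1)).biUnion (fun i =>
      Fintype.piFinset (fun j => Finset.Icc ⌈c i j - 5⌉₊ ⌊c i j + 5⌋₊)) := by
    intro z hz
    obtain ⟨θ, h0, h1, h⟩ := hS z hz
    rw [Finset.mem_biUnion]
    have hN' : (0:ℝ) < N := by exact_mod_cast hN
    refine ⟨⌊θ * N⌋₊, ?_, ?_⟩
    · rw [Finset.mem_range]
      have : ⌊θ * N⌋₊ ≤ N := by
        apply Nat.floor_le_of_le
        nlinarith
      omega
    · rw [Fintype.mem_piFinset]
      intro j
      set i := ⌊θ * N⌋₊ with hi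
      have hi1 : (i:ℝ) ≤ θ * N := Nat.floor_le (by positivity)
      have hi2 : θ * N < i + 1 := Nat.lt_floor_add_one _
      have h3 : |((1 - θ) * p j + θ * q j) - c i j| ≤ 1 := by
        have e : ((1 - θ) * p j + θ * q j) - c i j = (θ - i / N) * (q j - p j) := by
          rw [hc]; ring
        rw [e, abs_mul]
        have h4 : |θ - i / N| ≤ 1 / N := by
          rw [abs_le]
          constructor
          · have : (i:ℝ) / N ≤ θ := by rw [div_le_iff₀ hN']; exact hi1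
            have : 0 < 1 / (N:ℝ) := by positivity
            linarith
          · have : θ ≤ (i + 1) / N := by rw [le_div_iff₀ hN']; exact hi2.le
            have e2 : ((i:ℝ) + 1) / N = i / N + 1 / N := by ring
            linarith
        have h5 : |q j - p j| ≤ N := by
          rw [abs_le]
          constructor <;> linarith [(hp j).1, (hp j).2, (hq j).1, (hq j).2]
        calc |θ - i / N| * |q j - p j| ≤ 1 / N * N :=
              mul_le_mul h4 h5 (abs_nonneg _) (by positivity)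
          _ = 1 := by field_simp
      have h6 : |(z j : ℝ) - c i j| ≤ 5 := by
        have e : (z j : ℝ) - c i j = ((z j : ℝ) - ((1 - θ) * p j + θ * q j)) +
          (((1 - θ) * p j + θ * q j) - c i j) := by ring
        rw [e]
        refine (abs_add_le _ _).trans ?_
        linarith [h j]
      rw [abs_le] at h6
      rw [Finset.mem_Icc]
      constructor
      · apply Nat.ceil_le.2
        linarith
      · apply Nat.le_floor
        linarith
  refine (Finset.card_le_card hsub).trans ?_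
  refine (Finset.card_biUnion_le_card_mul _ _ (11 ^ d) ?_).trans ?_
  · intro i _
    rw [Fintype.card_piFinset]
    calc ∏ j : Fin d, (Finset.Icc ⌈c i j - 5⌉₊ ⌊c i j + 5⌋₊).card ≤ ∏ j : Fin d, 11 :=
          Finset.prod_le_prod (fun _ _ => Nat.zero_le _) (fun j _ => card_Icc_le _)
      _ = 11 ^ d := by simp
  · rw [Finset.card_range]

theorem segment_of_line {α : Type*} {d : ℕ} (Z : Finset α) (P : α → Fin d → ℝ) (a v : Fin d → ℝ)
    (hZ : Z.Nonempty) (h : ∀ u ∈ Z, ∃ t : ℝ, ∀ j, |P u j - (a j + t * v j)| ≤ 2) :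
    ∃ u₀ ∈ Z, ∃ u₁ ∈ Z, ∀ u ∈ Z, ∃ θ : ℝ, 0 ≤ θ ∧ θ ≤ 1 ∧
      ∀ j, |P u j - ((1 - θ) * P u₀ j + θ * P u₁ j)| ≤ 4 := by
  classical
  choose! t ht using h
  obtain ⟨u₀, h0, h0'⟩ := Finset.exists_min_image Z t hZ
  obtain ⟨u₁, h1, h1'⟩ := Finset.exists_max_image Z t hZ
  refine ⟨u₀, h0, u₁, h1, ?_⟩
  intro u hu
  have hθ : ∃ θ : ℝ, 0 ≤ θ ∧ θ ≤ 1 ∧ t u = (1 - θ) * t u₀ + θ * t u₁ := by
    rcases (h0' u₁ h1).eq_or_lt with heq | hlt
    · refine ⟨0, le_rfl, zero_le_one, ?_⟩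
      have e1 := h0' u hu
      have e2 := h1' u hu
      linarith
    · refine ⟨(t u - t u₀) / (t u₁ - t u₀), ?_, ?_, ?_⟩
      · exact div_nonneg (by linarith [h0' u hu]) (by linarith)
      · rw [div_le_one (by linarith)]
        linarith [h1' u hu]
      · have : t u₁ - t u₀ ≠ 0 := by linarith
        field_simp
        ring
  obtain ⟨θ, hθ0, hθ1, hθ⟩ := hθ
  refine ⟨θ, hθ0, hθ1, fun j => ?_⟩
  have e : P u j - ((1 - θ) * P u₀ j + θ * P u₁ j) = (P u j - (a j + t u * v j)) -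
      ((1 - θ) * (P u₀ j - (a j + t u₀ * v j)) + θ * (P u₁ j - (a j + t u₁ * v j))) := by
    rw [hθ]; ring
  have b1 := abs_le.1 (ht u hu j)
  have b2 := abs_le.1 (ht u₀ h0 j)
  have b3 := abs_le.1 (ht u₁ h1 j)
  rw [e, abs_le]
  constructor <;> nlinarith

open Classical in
/-- the pattern lemma -/
theorem exists_pattern (D : ℕ) : ∃ m0 : ℕ, ∀ m ≥ m0, ∃ φ : (Fin D → Fin (2 ^ m)) → Fin (2 ^ m),
    ∀ a v : Fin (D + 1) → ℝ,
      (univ.filter (fun u : Fin D → Fin (2 ^ m) => ∃ t : ℝ, ∀ j,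
        |((pt (fun i => (u i : ℕ)) (φ u : ℕ) j : ℕ) : ℝ) - (a j + t * v j)| ≤ 2)).card ≤ m := by
  set lam : ℝ := 2 ^ (2 * D + 3) - 1 with hlam
  have hlam0 : 0 ≤ lam := by
    rw [hlam]
    have : (1:ℝ) ≤ 2 ^ (2 * D + 3) := one_le_pow₀ (by norm_num)
    linarith
  have hlam1 : 1 + lam = 2 ^ (2 * D + 3) := by rw [hlam]; ring
  obtain ⟨m0, hm0⟩ := pow_unbounded_of_one_lt (Real.exp (lam * (2 * 11 ^ (D + 1)))) (show (1:ℝ) < 2 by norm_num)
  refine ⟨m0, fun m hm => ?_⟩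
  by_contra hcon
  push Not at hcon
  -- finite set of segments
  set N : ℕ := 2 ^ m with hN
  have hN1 : 1 ≤ N := Nat.one_le_two_pow
  have : Nonempty (Fin N) := ⟨⟨0, hN1⟩⟩
  set Q := (Fin (D + 1) → Fin N) × (Fin (D + 1) → Fin N) with hQ
  set S : Q → Finset ((Fin D → Fin N) × Fin N) := fun pq =>
    univ.filter (fun z => ∃ θ : ℝ, 0 ≤ θ ∧ θ ≤ 1 ∧
      ∀ j, |((pt (fun i => (z.1 i : ℕ)) (z.2 : ℕ) j : ℕ) : ℝ) -
        ((1 - θ) * ((pq.1 j : ℕ) : ℝ) + θ * ((pq.2 j : ℕ) : ℝ))| ≤ 4) with hSdef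
  have hScard : ∀ pq, (S pq).card ≤ (N + 1) * 11 ^ (D + 1) := by
    intro pq
    set f : (Fin D → Fin N) × Fin N → (Fin (D + 1) → ℕ) := fun z => pt (fun i => (z.1 i : ℕ)) (z.2 : ℕ) with hf
    have hinj : Function.Injective f := by
      intro x y hxy
      have h1 : ∀ i, ((x.1 i : ℕ)) = (y.1 i : ℕ) := by
        intro i
        have := congrFun hxy i.castSucc
        simpa [hf, pt_castSucc] using this
      have h2 : (x.2 : ℕ) = y.2 := by
        have := congrFun hxy (Fin.last D)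
        simpa [hf, pt_last] using this
      ext i
      · exact h1 i
      · exact h2
    rw [← Finset.card_image_of_injective _ hinj]
    apply card_near_segment hN1 (fun j => ((pq.1 j : ℕ) : ℝ)) (fun j => ((pq.2 j : ℕ) : ℝ))
    · intro j
      exact ⟨Nat.cast_nonneg _, by exact_mod_cast (pq.1 j).2.le⟩
    · intro j
      exact ⟨Nat.cast_nonneg _, by exact_mod_cast (pq.2 j).2.le⟩
    · intro z hz
      obtain ⟨x, hx, rfl⟩ := Finset.mem_image.1 hz
      exact (Finset.mem_filter.1 hx).2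
  set B : Q → Finset ((Fin D → Fin N) → Fin N) := fun pq =>
    univ.filter (fun φ => m ≤ (univ.filter (fun u => (u, φ u) ∈ S pq)).card) with hB
  have hcover : (univ : Finset ((Fin D → Fin N) → Fin N)) ⊆ (univ : Finset Q).biUnion B := by
    intro φ _
    obtain ⟨a, v, hav⟩ := hcon φ
    set Zs := univ.filter (fun u : Fin D → Fin (2 ^ m) => ∃ t : ℝ, ∀ j,
        |((pt (fun i => (u i : ℕ)) (φ u : ℕ) j : ℕ) : ℝ) - (a j + t * v j)| ≤ 2) with hZs
    have hne : Zs.Nonempty := by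
      rw [← Finset.card_pos]; omega
    obtain ⟨u₀, _, u₁, _, hu⟩ := segment_of_line Zs
      (fun u j => ((pt (fun i => (u i : ℕ)) (φ u : ℕ) j : ℕ) : ℝ)) a v hne
      (fun u hu => (Finset.mem_filter.1 hu).2)
    rw [Finset.mem_biUnion]
    have hlt : ∀ (u : Fin D → Fin N) (j : Fin (D + 1)), pt (fun i => (u i : ℕ)) (φ u : ℕ) j < N := by
      intro u j
      refine Fin.lastCases ?_ (fun i => ?_) j
      · rw [pt_last]; exact (φ u).2
      · rw [pt_castSucc]; exact (u i).2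
    refine ⟨(fun j => ⟨pt (fun i => (u₀ i : ℕ)) (φ u₀ : ℕ) j, hlt u₀ j⟩,
      fun j => ⟨pt (fun i => (u₁ i : ℕ)) (φ u₁ : ℕ) j, hlt u₁ j⟩), Finset.mem_univ _, ?_⟩
    rw [hB]
    simp only []
    rw [Finset.mem_filter]
    refine ⟨Finset.mem_univ _, ?_⟩
    refine hav.le.trans (Finset.card_le_card ?_)
    intro u huZ
    rw [Finset.mem_filter]
    refine ⟨Finset.mem_univ _, ?_⟩
    rw [hSdef]
    simp only []
    rw [Finset.mem_filter]
    exact ⟨Finset.mem_univ _, hu u huZ⟩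
  have hNr : (0:ℝ) < N := by exact_mod_cast hN1
  have hBcard : ∀ pq, ((B pq).card : ℝ) * (1 + lam) ^ m ≤
      (N : ℝ) ^ (Fintype.card (Fin D → Fin N)) * Real.exp (lam * (2 * 11 ^ (D + 1))) := by
    intro pq
    have h1 := count_bad (S pq) m lam hlam0
    rw [Fintype.card_fin] at h1
    refine h1.trans ?_
    apply mul_le_mul_of_nonneg_left _ (by positivity)
    apply Real.exp_le_exp.2
    rw [mul_div_assoc]
    apply mul_le_mul_of_nonneg_left _ hlam0
    rw [div_le_iff₀ hNr]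
    have h2 : ((S pq).card : ℝ) ≤ (N + 1) * 11 ^ (D + 1) := by exact_mod_cast hScard pq
    refine h2.trans ?_
    have h3 : (1:ℝ) ≤ N := by exact_mod_cast hN1
    have h4 : (0:ℝ) < 11 ^ (D + 1) := by positivity
    nlinarith
  have hcount : ((Fintype.card ((Fin D → Fin N) → Fin N) : ℕ) : ℝ) ≤ ∑ pq : Q, ((B pq).card : ℝ) := by
    have := (Finset.card_le_card hcover).trans Finset.card_biUnion_le
    rw [Finset.card_univ] at this
    exact_mod_cast this
  have h5 : ((Fintype.card ((Fin D → Fin N) → Fin N) : ℕ) : ℝ) * (1 + lam) ^ m ≤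
      (N : ℝ) ^ (2 * (D + 1)) * ((N : ℝ) ^ (Fintype.card (Fin D → Fin N)) *
        Real.exp (lam * (2 * 11 ^ (D + 1)))) := by
    refine (mul_le_mul_of_nonneg_right hcount (by positivity)).trans ?_
    rw [Finset.sum_mul]
    refine (Finset.sum_le_sum (fun pq _ => hBcard pq)).trans ?_
    rw [Finset.sum_const, nsmul_eq_mul]
    have hcQ : Fintype.card Q = N ^ (D + 1) * N ^ (D + 1) :=
      (Fintype.card_prod (Fin (D + 1) → Fin N) (Fin (D + 1) → Fin N)).trans
        (by rw [Fintype.card_fun, Fintype.card_fin, Fintype.card_fin])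
    apply le_of_eq
    congr 1
    rw [Finset.card_univ, hcQ]
    push_cast
    ring
  have h6 : ((Fintype.card ((Fin D → Fin N) → Fin N) : ℕ) : ℝ) = (N : ℝ) ^ (Fintype.card (Fin D → Fin N)) := by
    rw [Fintype.card_fun, Fintype.card_fin]
    push_cast
    rfl
  rw [h6, hlam1] at h5
  set X : ℝ := (N : ℝ) ^ (Fintype.card (Fin D → Fin N)) with hX
  have hXpos : 0 < X := by positivity
  have h7 : ((2:ℝ) ^ (2 * D + 3)) ^ m ≤ (N : ℝ) ^ (2 * (D + 1)) * Real.exp (lam * (2 * 11 ^ (D + 1))) := by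
    have : X * ((2:ℝ) ^ (2 * D + 3)) ^ m ≤ X * ((N : ℝ) ^ (2 * (D + 1)) * Real.exp (lam * (2 * 11 ^ (D + 1)))) := by
      refine h5.trans (le_of_eq ?_)
      ring
    exact le_of_mul_le_mul_left this hXpos
  have h8 : ((2:ℝ) ^ (2 * D + 3)) ^ m = (N : ℝ) ^ (2 * (D + 1)) * 2 ^ m := by
    rw [hN]
    push_cast
    rw [← pow_mul, ← pow_mul, ← pow_add]
    congr 1
    ring
  rw [h8] at h7
  have h9 : (2:ℝ) ^ m ≤ Real.exp (lam * (2 * 11 ^ (D + 1))) := le_of_mul_le_mul_left h7 (by positivity)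
  have h10 : (2:ℝ) ^ m0 ≤ 2 ^ m := pow_le_pow_right₀ (by norm_num) hm
  linarith

/-- exponent of the side length at level `n` -/
def Sm (m : ℕ → ℕ) (n : ℕ) : ℕ := ∑ j ∈ range n, m j

theorem Sm_succ (m : ℕ → ℕ) (n : ℕ) : Sm m (n + 1) = Sm m n + m n := by
  simp [Sm, Finset.sum_range_succ]

/-- height functions of the levels -/
def Phi {D : ℕ} (m : ℕ → ℕ) (ψ : ℕ → (Fin D → ℕ) → ℕ) : ℕ → (Fin D → ℕ) → ℕ
  | 0, _ => 0
  | n + 1, U => 2 ^ m n * Phi m ψ n (fun i => U i / 2 ^ m n) + ψ n (fun i => U i % 2 ^ m n)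

/-- lower corner of a cube, in units of the side length -/
def Zp {D : ℕ} (m : ℕ → ℕ) (ψ : ℕ → (Fin D → ℕ) → ℕ) (n : ℕ) (U : Fin D → ℕ) : Fin (D + 1) → ℕ :=
  pt U (Phi m ψ n U)

theorem Zp_succ {D : ℕ} (m : ℕ → ℕ) (ψ : ℕ → (Fin D → ℕ) → ℕ) (n : ℕ) (U : Fin D → ℕ) (j : Fin (D + 1)) :
    Zp m ψ (n + 1) U j = 2 ^ m n * Zp m ψ n (fun i => U i / 2 ^ m n) j +
      pt (fun i => U i % 2 ^ m n) (ψ n (fun i => U i % 2 ^ m n)) j := by
  refine Fin.lastCases ?_ (fun i => ?_) j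
  · simp only [Zp, pt_last, Phi]
  · simp only [Zp, pt_castSucc]
    exact (Nat.div_add_mod _ _).symm

/-- the cube of level `n` over the index `U` -/
def Cube {D : ℕ} (m : ℕ → ℕ) (ψ : ℕ → (Fin D → ℕ) → ℕ) (n : ℕ) (U : Fin D → ℕ) :
    Set (EuclideanSpace ℝ (Fin (D + 1))) :=
  {x | ∀ j, (Zp m ψ n U j : ℝ) / 2 ^ Sm m n ≤ x j ∧ x j ≤ (Zp m ψ n U j + 1) / 2 ^ Sm m n}

/-- indices of level `n` -/
def idx (D : ℕ) (m : ℕ → ℕ) (n : ℕ) : Finset (Fin D → ℕ) :=
  Fintype.piFinset (fun _ => range (2 ^ Sm m n))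

theorem mem_idx {D : ℕ} {m : ℕ → ℕ} {n : ℕ} {U : Fin D → ℕ} : U ∈ idx D m n ↔ ∀ i, U i < 2 ^ Sm m n := by
  simp [idx]

/-- the set -/
def Kset {D : ℕ} (m : ℕ → ℕ) (ψ : ℕ → (Fin D → ℕ) → ℕ) : Set (EuclideanSpace ℝ (Fin (D + 1))) :=
  ⋂ n, ⋃ U ∈ idx D m n, Cube m ψ n U

theorem Cube_subset {D : ℕ} {m : ℕ → ℕ} {ψ : ℕ → (Fin D → ℕ) → ℕ} (hψ : ∀ n u, ψ n u < 2 ^ m n)
    (n : ℕ) (U : Fin D → ℕ) : Cube m ψ (n + 1) U ⊆ Cube m ψ n (fun i => U i / 2 ^ m n) := by
  intro x hx j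
  have h := hx j
  rw [Zp_succ, Sm_succ] at h
  have hc : pt (fun i => U i % 2 ^ m n) (ψ n (fun i => U i % 2 ^ m n)) j + 1 ≤ 2 ^ m n := by
    refine Fin.lastCases ?_ (fun i => ?_) j
    · rw [pt_last]; exact hψ n _
    · rw [pt_castSucc]; exact Nat.mod_lt _ (by positivity)
  set Z := Zp m ψ n (fun i => U i / 2 ^ m n) j
  set c := pt (fun i => U i % 2 ^ m n) (ψ n (fun i => U i % 2 ^ m n)) j
  have hc' : (c : ℝ) + 1 ≤ 2 ^ m n := by exact_mod_cast hc
  have hc0 : (0:ℝ) ≤ c := Nat.cast_nonneg _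
  push_cast at h
  rw [pow_add] at h
  have p1 : (0:ℝ) < 2 ^ Sm m n := by positivity
  have p2 : (0:ℝ) < 2 ^ m n := by positivity
  constructor
  · refine le_trans ?_ h.1
    rw [div_le_div_iff₀ p1 (by positivity)]
    nlinarith [mul_nonneg hc0 p1.le]
  · refine h.2.trans ?_
    rw [div_le_div_iff₀ (by positivity) p1]
    nlinarith [mul_le_mul_of_nonneg_left hc' p1.le]

open Classical in
/-- number of cubes of level `n` meeting `T` -/
noncomputable def cnt {D : ℕ} (m : ℕ → ℕ) (ψ : ℕ → (Fin D → ℕ) → ℕ) (n : ℕ)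
    (T : Set (EuclideanSpace ℝ (Fin (D + 1)))) : ℕ :=
  ((idx D m n).filter (fun U => (Cube m ψ n U ∩ T).Nonempty)).card

open Classical in
theorem cnt_succ_le {D : ℕ} {m : ℕ → ℕ} {ψ : ℕ → (Fin D → ℕ) → ℕ} (hψ : ∀ n u, ψ n u < 2 ^ m n)
    (n : ℕ) (T : Set (EuclideanSpace ℝ (Fin (D + 1)))) (c : ℕ)
    (h : ∀ U' : Fin D → ℕ, ((Fintype.piFinset (fun _ : Fin D => range (2 ^ m n))).filter
      (fun u => (Cube m ψ (n + 1) (fun i => 2 ^ m n * U' i + u i) ∩ T).Nonempty)).card ≤ c) :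
    cnt m ψ (n + 1) T ≤ c * cnt m ψ n T := by
  unfold cnt
  apply Finset.card_le_mul_card_image_of_maps_to (f := fun U : Fin D → ℕ => fun i => U i / 2 ^ m n)
  · intro U hU
    rw [Finset.mem_filter] at hU ⊢
    refine ⟨?_, ?_⟩
    · rw [mem_idx]
      intro i
      have := mem_idx.1 hU.1 i
      rw [Sm_succ, pow_add] at this
      exact Nat.div_lt_of_lt_mul (by rw [mul_comm]; exact this)
    · exact hU.2.mono (Set.inter_subset_inter_left _ (Cube_subset hψ n U))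
  · intro U' _
    refine le_trans ?_ (h U')
    apply Finset.card_le_card_of_injOn (fun U : Fin D → ℕ => fun i => U i % 2 ^ m n)
    · intro U hU
      rw [Finset.mem_coe, Finset.mem_filter, Finset.mem_filter] at hU
      rw [Finset.mem_coe, Finset.mem_filter]
      have e : (fun i => 2 ^ m n * U' i + U i % 2 ^ m n) = U := by
        funext i
        rw [← hU.2]
        exact Nat.div_add_mod _ _
      refine ⟨?_, ?_⟩
      · rw [Fintype.mem_piFinset]
        intro i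
        rw [Finset.mem_range]
        exact Nat.mod_lt _ (by positivity)
      · simp only []
        rw [e]
        exact hU.1.2
    · intro U hU V hV hUV
      rw [Finset.mem_coe, Finset.mem_filter] at hU hV
      funext i
      have h1 := congrFun (hU.2.trans hV.2.symm) i
      have h2 := congrFun hUV i
      simp only [] at h1 h2
      rw [← Nat.div_add_mod (U i) (2 ^ m n), ← Nat.div_add_mod (V i) (2 ^ m n), h1, h2]

theorem cnt_succ_le_all {D : ℕ} {m : ℕ → ℕ} {ψ : ℕ → (Fin D → ℕ) → ℕ} (hψ : ∀ n u, ψ n u < 2 ^ m n)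
    (n : ℕ) (T : Set (EuclideanSpace ℝ (Fin (D + 1)))) :
    cnt m ψ (n + 1) T ≤ (2 ^ m n) ^ D * cnt m ψ n T := by
  classical
  apply cnt_succ_le hψ
  intro U'
  refine (Finset.card_filter_le _ _).trans ?_
  rw [Fintype.card_piFinset]
  simp

theorem cnt_zero_le {D : ℕ} (m : ℕ → ℕ) (ψ : ℕ → (Fin D → ℕ) → ℕ)
    (T : Set (EuclideanSpace ℝ (Fin (D + 1)))) : cnt m ψ 0 T ≤ 1 := by
  classical
  unfold cnt
  refine (Finset.card_filter_le _ _).trans ?_
  simp [idx, Sm]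

theorem cnt_add_le {D : ℕ} {m : ℕ → ℕ} {ψ : ℕ → (Fin D → ℕ) → ℕ} (hψ : ∀ n u, ψ n u < 2 ^ m n)
    (n k : ℕ) (T : Set (EuclideanSpace ℝ (Fin (D + 1)))) :
    cnt m ψ (n + k) T * (2 ^ Sm m n) ^ D ≤ cnt m ψ n T * (2 ^ Sm m (n + k)) ^ D := by
  induction k with
  | zero => simp
  | succ k ih =>
    have h1 := cnt_succ_le_all hψ (n + k) T
    rw [← add_assoc, Sm_succ]
    calc cnt m ψ (n + k + 1) T * (2 ^ Sm m n) ^ D
        ≤ ((2 ^ m (n + k)) ^ D * cnt m ψ (n + k) T) * (2 ^ Sm m n) ^ D :=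
          Nat.mul_le_mul_right _ h1
      _ = (2 ^ m (n + k)) ^ D * (cnt m ψ (n + k) T * (2 ^ Sm m n) ^ D) := by ring
      _ ≤ (2 ^ m (n + k)) ^ D * (cnt m ψ n T * (2 ^ Sm m (n + k)) ^ D) :=
          Nat.mul_le_mul_left _ ih
      _ = _ := by rw [pow_add, mul_pow]; ring

/-- the sup-norm tube (a set of points within `w` of a line) -/
def nearLine {D : ℕ} (a v : Fin (D + 1) → ℝ) (w : ℝ) : Set (EuclideanSpace ℝ (Fin (D + 1))) :=
  {x | ∃ t : ℝ, ∀ j, |x j - (a j + t * v j)| ≤ w}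

open Classical in
theorem cnt_succ_le_tube {D : ℕ} {m : ℕ → ℕ} {ψ : ℕ → (Fin D → ℕ) → ℕ} (hψ : ∀ n u, ψ n u < 2 ^ m n)
    (n : ℕ) (M : ℕ)
    (hpat : ∀ a v : Fin (D + 1) → ℝ, ((Fintype.piFinset (fun _ : Fin D => range (2 ^ m n))).filter
      (fun u => ∃ t : ℝ, ∀ j, |((pt u (ψ n u) j : ℕ) : ℝ) - (a j + t * v j)| ≤ 2)).card ≤ M)
    (a v : Fin (D + 1) → ℝ) (w : ℝ) (hw : w ≤ 1 / 2 ^ Sm m (n + 1)) :
    cnt m ψ (n + 1) (nearLine a v w) ≤ M * cnt m ψ n (nearLine a v w) := by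
  apply cnt_succ_le hψ
  intro U'
  refine le_trans (Finset.card_le_card ?_) (hpat (fun j => 2 ^ Sm m (n + 1) * a j - 2 ^ m n * Zp m ψ n U' j)
    (fun j => 2 ^ Sm m (n + 1) * v j))
  intro u hu
  rw [Finset.mem_filter] at hu ⊢
  refine ⟨hu.1, ?_⟩
  obtain ⟨x, hx, t, ht⟩ := hu.2
  refine ⟨t, fun j => ?_⟩
  have h1 := hx j
  have h2 := ht j
  have hui : ∀ i, u i < 2 ^ m n := fun i => Finset.mem_range.1 (Fintype.mem_piFinset.1 hu.1 i)
  have e1 : (fun i => (2 ^ m n * U' i + u i) / 2 ^ m n) = U' := by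
    funext i
    rw [Nat.mul_add_div (by positivity), Nat.div_eq_of_lt (hui i), add_zero]
  have e2 : (fun i => (2 ^ m n * U' i + u i) % 2 ^ m n) = u := by
    funext i
    rw [Nat.mul_add_mod, Nat.mod_eq_of_lt (hui i)]
  rw [Zp_succ, e1, e2] at h1
  set Z := Zp m ψ n U' j
  set c := pt u (ψ n u) j
  set P : ℝ := 2 ^ Sm m (n + 1) with hP
  have hPpos : 0 < P := by positivity
  push_cast at h1
  rw [div_le_iff₀ hPpos, le_div_iff₀ hPpos] at h1
  have h3 : |P * (x j - (a j + t * v j))| ≤ 1 := by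
    rw [abs_mul, abs_of_pos hPpos]
    calc P * |x j - (a j + t * v j)| ≤ P * (1 / P) :=
          mul_le_mul_of_nonneg_left (h2.trans hw) hPpos.le
      _ = 1 := by field_simp
  rw [abs_le] at h3 ⊢
  constructor <;> nlinarith [h1.1, h1.2, h3.1, h3.2]

open MeasureTheory Filter Topology
open scoped ENNReal

theorem Cube_isClosed {D : ℕ} (m : ℕ → ℕ) (ψ : ℕ → (Fin D → ℕ) → ℕ) (n : ℕ) (U : Fin D → ℕ) :
    IsClosed (Cube m ψ n U) := by
  have : Cube m ψ n U = ⋂ j, {x : EuclideanSpace ℝ (Fin (D + 1)) |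
      (Zp m ψ n U j : ℝ) / 2 ^ Sm m n ≤ x j ∧ x j ≤ (Zp m ψ n U j + 1) / 2 ^ Sm m n} := by
    ext x
    simp [Cube]
  rw [this]
  apply isClosed_iInter
  intro j
  have hc : Continuous (fun x : EuclideanSpace ℝ (Fin (D + 1)) => x j) := by fun_prop
  exact (isClosed_le continuous_const hc).inter (isClosed_le hc continuous_const)

theorem Cube_dist {D : ℕ} (m : ℕ → ℕ) (ψ : ℕ → (Fin D → ℕ) → ℕ) (n : ℕ) (U : Fin D → ℕ)
    {x y : EuclideanSpace ℝ (Fin (D + 1))} (hx : x ∈ Cube m ψ n U) (hy : y ∈ Cube m ψ n U) :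
    dist x y ≤ (D + 1) / 2 ^ Sm m n := by
  have hj : ∀ j, |x j - y j| ≤ 1 / 2 ^ Sm m n := by
    intro j
    have h1 := hx j
    have h2 := hy j
    have e : ((Zp m ψ n U j : ℝ) + 1) / 2 ^ Sm m n = (Zp m ψ n U j : ℝ) / 2 ^ Sm m n + 1 / 2 ^ Sm m n := by
      ring
    rw [e] at h1 h2
    rw [abs_le]
    constructor <;> linarith [h1.1, h1.2, h2.1, h2.2]
  rw [EuclideanSpace.dist_eq]
  have h3 : ∑ j, dist (x j) (y j) ^ 2 ≤ ((D + 1) / 2 ^ Sm m n) ^ 2 := by
    calc ∑ j, dist (x j) (y j) ^ 2 ≤ ∑ _j : Fin (D + 1), ((1:ℝ) / 2 ^ Sm m n) ^ 2 := by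
          apply Finset.sum_le_sum
          intro j _
          rw [Real.dist_eq]
          exact pow_le_pow_left₀ (abs_nonneg _) (hj j) 2
      _ = (D + 1) * ((1:ℝ) / 2 ^ Sm m n) ^ 2 := by
          rw [Finset.sum_const, Finset.card_univ, Fintype.card_fin, nsmul_eq_mul]
          push_cast
          ring
      _ ≤ ((D + 1) / 2 ^ Sm m n) ^ 2 := by
          have hD : (0:ℝ) ≤ D := Nat.cast_nonneg _
          have : ((D:ℝ) + 1) ≤ (D + 1) ^ 2 := by nlinarith
          rw [div_pow, div_pow, one_pow, mul_one_div]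
          exact div_le_div_of_nonneg_right this (by positivity)
  calc Real.sqrt (∑ j, dist (x j) (y j) ^ 2) ≤ Real.sqrt (((D + 1) / 2 ^ Sm m n) ^ 2) :=
        Real.sqrt_le_sqrt h3
    _ = (D + 1) / 2 ^ Sm m n := Real.sqrt_sq (by positivity)

theorem Cube_ediam {D : ℕ} (m : ℕ → ℕ) (ψ : ℕ → (Fin D → ℕ) → ℕ) (n : ℕ) (U : Fin D → ℕ) :
    Metric.ediam (Cube m ψ n U) ≤ ENNReal.ofReal ((D + 1) / 2 ^ Sm m n) := by
  apply Metric.ediam_le
  intro x hx y hy
  rw [edist_dist]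
  exact ENNReal.ofReal_le_ofReal (Cube_dist m ψ n U hx hy)

theorem Kset_isCompact {D : ℕ} (m : ℕ → ℕ) (ψ : ℕ → (Fin D → ℕ) → ℕ) : IsCompact (Kset m ψ) := by
  apply Metric.isCompact_of_isClosed_isBounded
  · apply isClosed_iInter
    intro n
    exact Set.Finite.isClosed_biUnion (Finset.finite_toSet _) (fun U _ => Cube_isClosed m ψ n U)
  · have h0 : Kset m ψ ⊆ ⋃ U ∈ idx D m 0, Cube m ψ 0 U := Set.iInter_subset _ 0
    apply Bornology.IsBounded.subset _ h0
    rw [Bornology.isBounded_biUnion_finset]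
    intro U _
    rw [Metric.isBounded_iff]
    exact ⟨_, fun x hx y hy => Cube_dist m ψ 0 U hx hy⟩

theorem Sm_ge {m : ℕ → ℕ} (hm : ∀ n, 1 ≤ m n) (n : ℕ) : n ≤ Sm m n := by
  induction n with
  | zero => simp
  | succ n ih => rw [Sm_succ]; have := hm n; omega

theorem hausdorff_le {D : ℕ} {m : ℕ → ℕ} {ψ : ℕ → (Fin D → ℕ) → ℕ} (hm : ∀ n, 1 ≤ m n)
    (hψ : ∀ n u, ψ n u < 2 ^ m n) (n : ℕ) (T : Set (EuclideanSpace ℝ (Fin (D + 1)))) :
    μH[(D:ℝ)] (Kset m ψ ∩ T) ≤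
      ENNReal.ofReal ((cnt m ψ n T : ℝ) * ((D + 1) / 2 ^ Sm m n) ^ D) := by
  classical
  set ι : ℕ → Type := fun k => {U : Fin D → ℕ // U ∈ (idx D m (n + k)).filter
    (fun U => (Cube m ψ (n + k) U ∩ T).Nonempty)} with hι
  have hr : Tendsto (fun k : ℕ => ENNReal.ofReal (((D:ℝ) + 1) / 2 ^ Sm m (n + k))) atTop (𝓝 0) := by
    rw [← ENNReal.ofReal_zero]
    apply ENNReal.tendsto_ofReal
    have h1 : Tendsto (fun k : ℕ => ((D:ℝ) + 1) * (1 / 2) ^ k) atTop (𝓝 (((D:ℝ) + 1) * 0)) :=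
      (tendsto_pow_atTop_nhds_zero_of_lt_one (by norm_num) (by norm_num)).const_mul _
    rw [mul_zero] at h1
    apply squeeze_zero (fun k => by positivity) _ h1
    intro k
    rw [one_div_pow, mul_one_div]
    apply div_le_div_of_nonneg_left (by positivity) (by positivity)
    apply pow_le_pow_right₀ (by norm_num)
    have := Sm_ge hm (n + k)
    omega
  have key := Measure.hausdorffMeasure_le_liminf_sum (ι := ι) (D:ℝ) (Kset m ψ ∩ T)
    (l := atTop) (fun k : ℕ => ENNReal.ofReal (((D:ℝ) + 1) / 2 ^ Sm m (n + k))) hr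
    (fun k U => Cube m ψ (n + k) U.1) (Eventually.of_forall fun k U => Cube_ediam m ψ (n + k) U.1)
    (Eventually.of_forall fun k x hx => by
      have h1 := Set.mem_iInter.1 hx.1 (n + k)
      rw [Set.mem_iUnion₂] at h1
      obtain ⟨U, hU, hxU⟩ := h1
      rw [Set.mem_iUnion]
      exact ⟨⟨U, Finset.mem_filter.2 ⟨hU, x, hxU, hx.2⟩⟩, hxU⟩)
  refine key.trans ?_
  have hle : ∀ k, ∑ i : ι k, Metric.ediam (Cube m ψ (n + k) i.1) ^ (D:ℝ) ≤
      ENNReal.ofReal ((cnt m ψ n T : ℝ) * ((D + 1) / 2 ^ Sm m n) ^ D) := by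
    intro k
    calc ∑ i : ι k, Metric.ediam (Cube m ψ (n + k) i.1) ^ (D:ℝ)
        ≤ ∑ _i : ι k, ENNReal.ofReal ((((D:ℝ) + 1) / 2 ^ Sm m (n + k)) ^ D) := by
          apply Finset.sum_le_sum
          intro i _
          rw [ENNReal.rpow_natCast, ENNReal.ofReal_pow (by positivity)]
          exact pow_le_pow_left' (Cube_ediam m ψ (n + k) i.1) D
      _ = (cnt m ψ (n + k) T : ℝ≥0∞) * ENNReal.ofReal ((((D:ℝ) + 1) / 2 ^ Sm m (n + k)) ^ D) := by
          rw [Finset.sum_const, Finset.card_univ, nsmul_eq_mul]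
          congr 2
          exact Fintype.card_coe _
      _ = ENNReal.ofReal ((cnt m ψ (n + k) T : ℝ) * ((((D:ℝ) + 1) / 2 ^ Sm m (n + k)) ^ D)) := by
          rw [ENNReal.ofReal_mul (Nat.cast_nonneg _), ENNReal.ofReal_natCast]
      _ ≤ _ := by
          apply ENNReal.ofReal_le_ofReal
          have h1 : (cnt m ψ (n + k) T : ℝ) * (2 ^ Sm m n) ^ D ≤ cnt m ψ n T * (2 ^ Sm m (n + k)) ^ D := by
            exact_mod_cast cnt_add_le hψ n k T
          rw [div_pow, div_pow, mul_div_assoc', mul_div_assoc', div_le_div_iff₀ (by positivity) (by positivity)]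
          have h2 : (0:ℝ) ≤ ((D:ℝ) + 1) ^ D := by positivity
          nlinarith [mul_le_mul_of_nonneg_left h1 h2]
  calc liminf (fun k => ∑ i : ι k, Metric.ediam (Cube m ψ (n + k) i.1) ^ (D:ℝ)) atTop
      ≤ liminf (fun _ : ℕ => ENNReal.ofReal ((cnt m ψ n T : ℝ) * ((D + 1) / 2 ^ Sm m n) ^ D)) atTop :=
        liminf_le_liminf (Eventually.of_forall hle)
    _ = _ := liminf_const _

/-- projection to the first `D` coordinates -/
def pr (D : ℕ) (x : EuclideanSpace ℝ (Fin (D + 1))) : Fin D → ℝ := fun i => x i.castSucc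

theorem pr_lipschitz (D : ℕ) : LipschitzWith 1 (pr D) := by
  apply LipschitzWith.of_dist_le_mul
  intro x y
  rw [NNReal.coe_one, one_mul, dist_pi_le_iff dist_nonneg]
  intro i
  rw [EuclideanSpace.dist_eq]
  apply Real.le_sqrt_of_sq_le
  exact Finset.single_le_sum (f := fun j => dist (x j) (y j) ^ 2) (fun j _ => by positivity)
    (Finset.mem_univ i.castSucc)

theorem pr_image {D : ℕ} {m : ℕ → ℕ} {ψ : ℕ → (Fin D → ℕ) → ℕ} (hψ : ∀ n u, ψ n u < 2 ^ m n) :
    Set.pi Set.univ (fun _ : Fin D => Set.Ico (0:ℝ) 1) ⊆ pr D '' Kset m ψ := by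
  intro x hx
  have hx0 : ∀ i, 0 ≤ x i := fun i => (hx i (Set.mem_univ i)).1
  have hx1 : ∀ i, x i < 1 := fun i => (hx i (Set.mem_univ i)).2
  set U : ℕ → Fin D → ℕ := fun n i => ⌊x i * 2 ^ Sm m n⌋₊ with hU
  have hUsucc : ∀ n, (fun i => U (n + 1) i / 2 ^ m n) = U n := by
    intro n
    funext i
    rw [hU]
    simp only []
    rw [Sm_succ, pow_add, ← mul_assoc]
    have := Nat.floor_div_natCast (x i * 2 ^ Sm m n * 2 ^ m n) (2 ^ m n)
    rw [← this]
    congr 1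
    push_cast
    field_simp
  have hUmem : ∀ n, U n ∈ idx D m n := by
    intro n
    rw [mem_idx]
    intro i
    rw [hU]
    simp only []
    rw [Nat.floor_lt (by have := hx0 i; positivity)]
    push_cast
    have p : (0:ℝ) < 2 ^ Sm m n := by positivity
    nlinarith [hx1 i]
  set f : ℕ → ℝ := fun n => (Phi m ψ n (U n) : ℝ) / 2 ^ Sm m n with hf
  set g : ℕ → ℝ := fun n => ((Phi m ψ n (U n) : ℝ) + 1) / 2 ^ Sm m n with hg
  have hPhi : ∀ n, Phi m ψ (n + 1) (U (n + 1)) = 2 ^ m n * Phi m ψ n (U n) +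
      ψ n (fun i => U (n + 1) i % 2 ^ m n) := by
    intro n
    rw [Phi, hUsucc]
  have hfg : ∀ n, f n ≤ g n := by
    intro n
    rw [hf, hg]
    simp only []
    exact div_le_div_of_nonneg_right (by linarith) (by positivity)
  have hanti : Antitone (fun n => Set.Icc (f n) (g n)) := by
    apply antitone_nat_of_succ_le
    intro n
    apply Set.Icc_subset_Icc
    · rw [hf]
      simp only []
      rw [hPhi, Sm_succ, pow_add, div_le_div_iff₀ (by positivity) (by positivity)]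
      push_cast
      have : (0:ℝ) ≤ ψ n (fun i => U (n + 1) i % 2 ^ m n) := Nat.cast_nonneg _
      have p : (0:ℝ) < 2 ^ Sm m n := by positivity
      nlinarith [mul_nonneg this p.le]
    · rw [hg]
      simp only []
      rw [hPhi, Sm_succ, pow_add, div_le_div_iff₀ (by positivity) (by positivity)]
      push_cast
      have h1 : (ψ n (fun i => U (n + 1) i % 2 ^ m n) : ℝ) + 1 ≤ 2 ^ m n := by
        exact_mod_cast hψ n _
      have p : (0:ℝ) < 2 ^ Sm m n := by positivity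
      nlinarith [mul_le_mul_of_nonneg_left h1 p.le]
  have hy := ciSup_mem_iInter_Icc_of_antitone_Icc hanti hfg
  set y : ℝ := ⨆ n, f n with hydef
  rw [Set.mem_iInter] at hy
  set X : EuclideanSpace ℝ (Fin (D + 1)) := WithLp.toLp 2 (Fin.snoc (α := fun _ => ℝ) x y) with hX
  have hX1 : ∀ i : Fin D, X i.castSucc = x i := by
    intro i
    simp [hX]
  have hX2 : X (Fin.last D) = y := by
    simp [hX]
  refine ⟨X, ?_, ?_⟩
  · rw [Kset, Set.mem_iInter]
    intro n
    rw [Set.mem_iUnion₂]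
    refine ⟨U n, hUmem n, ?_⟩
    intro j
    refine Fin.lastCases ?_ (fun i => ?_) j
    · rw [hX2, Zp, pt_last]
      exact hy n
    · rw [hX1, Zp, pt_castSucc]
      have p : (0:ℝ) < 2 ^ Sm m n := by positivity
      rw [div_le_iff₀ p, le_div_iff₀ p]
      constructor
      · exact Nat.floor_le (by have := hx0 i; positivity)
      · exact (Nat.lt_floor_add_one _).le
  · funext i
    rw [pr, hX1]

theorem hausdorff_pos {D : ℕ} {m : ℕ → ℕ} {ψ : ℕ → (Fin D → ℕ) → ℕ} (hψ : ∀ n u, ψ n u < 2 ^ m n) :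
    0 < μH[(D:ℝ)] (Kset m ψ) := by
  have h1 := (pr_lipschitz D).hausdorffMeasure_image_le (Nat.cast_nonneg D : (0:ℝ) ≤ D) (Kset m ψ)
  rw [ENNReal.coe_one, ENNReal.one_rpow, one_mul] at h1
  refine lt_of_lt_of_le ?_ h1
  refine lt_of_lt_of_le ?_ (measure_mono (pr_image hψ))
  have h2 : (μH[(D:ℝ)] : Measure (Fin D → ℝ)) = volume := by
    have := hausdorffMeasure_pi_real (ι := Fin D)
    rwa [Fintype.card_fin] at this
  rw [h2, volume_pi_pi]
  simp

open MeasureTheory Filter Topology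
open scoped ENNReal

open Classical in
theorem exists_pattern_nat (D : ℕ) : ∃ m0 : ℕ, ∀ m ≥ m0, ∃ ψ : (Fin D → ℕ) → ℕ, (∀ u, ψ u < 2 ^ m) ∧
    ∀ a v : Fin (D + 1) → ℝ, ((Fintype.piFinset (fun _ : Fin D => range (2 ^ m))).filter
      (fun u => ∃ t : ℝ, ∀ j, |((pt u (ψ u) j : ℕ) : ℝ) - (a j + t * v j)| ≤ 2)).card ≤ m := by
  obtain ⟨m0, hm0⟩ := exists_pattern D
  refine ⟨m0, fun m hm => ?_⟩
  obtain ⟨φ, hφ⟩ := hm0 m hm
  set cv : (Fin D → ℕ) → (Fin D → Fin (2 ^ m)) := fun u i => ⟨u i % 2 ^ m, Nat.mod_lt _ (by positivity)⟩ with hcv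
  refine ⟨fun u => (φ (cv u) : ℕ), fun u => (φ (cv u)).2, fun a v => ?_⟩
  refine le_trans (Finset.card_le_card_of_injOn cv ?_ ?_) (hφ a v)
  · intro u hu
    rw [Finset.mem_coe, Finset.mem_filter] at hu
    rw [Finset.mem_coe, Finset.mem_filter]
    refine ⟨Finset.mem_univ _, ?_⟩
    have e : (fun i => ((cv u i : Fin (2 ^ m)) : ℕ)) = u := by
      funext i
      have := Finset.mem_range.1 (Fintype.mem_piFinset.1 hu.1 i)
      exact Nat.mod_eq_of_lt this
    rw [e]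
    exact hu.2
  · intro u hu v hv huv
    rw [Finset.mem_coe, Finset.mem_filter] at hu hv
    funext i
    have h1 := Nat.mod_eq_of_lt (Finset.mem_range.1 (Fintype.mem_piFinset.1 hu.1 i))
    have h2 := Nat.mod_eq_of_lt (Finset.mem_range.1 (Fintype.mem_piFinset.1 hv.1 i))
    have h3 := congrArg (fun w => ((w i : Fin (2 ^ m)) : ℕ)) huv
    simp only [hcv] at h3
    rw [h1, h2] at h3
    exact h3

theorem bounded_of_ratio (a : ℕ → ℝ) (hpos : ∀ n, 0 ≤ a n) (n1 : ℕ) (h : ∀ n ≥ n1, a (n + 1) ≤ a n) :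
    ∃ C, 0 ≤ C ∧ ∀ n, a n ≤ C := by
  refine ⟨∑ i ∈ range (n1 + 1), a i, Finset.sum_nonneg (fun i _ => hpos i), fun n => ?_⟩
  have h1 : ∀ k ≤ n1, a k ≤ ∑ i ∈ range (n1 + 1), a i := by
    intro k hk
    exact Finset.single_le_sum (fun i _ => hpos i) (Finset.mem_range.2 (by omega))
  rcases le_total n n1 with hn | hn
  · exact h1 n hn
  · induction n, hn using Nat.le_induction with
    | base => exact h1 n1 le_rfl
    | succ k hk ih => exact (h k hk).trans ih

theorem seq_bounded (m0 : ℕ) (B r : ℝ) (hB : 0 ≤ B) (hr0 : 0 ≤ r) (hr1 : r < 1) :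
    ∃ C, 0 ≤ C ∧ ∀ n : ℕ, (∏ j ∈ range n, ((m0 + 1 + j : ℕ) : ℝ)) * B ^ (m0 + 1 + n) *
      r ^ (Sm (fun j => m0 + 1 + j) n) ≤ C := by
  have h1 : Tendsto (fun n : ℕ => B * (((m0 + 1 + n : ℕ) : ℝ) * r ^ (m0 + 1 + n))) atTop (𝓝 (B * 0)) := by
    apply Tendsto.const_mul
    have h2 := tendsto_self_mul_const_pow_of_lt_one hr0 hr1
    have h3 : Tendsto (fun n : ℕ => m0 + 1 + n) atTop atTop :=
      tendsto_atTop_mono (fun n => by simp only [id]; omega) tendsto_id
    exact h2.comp h3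
  rw [mul_zero] at h1
  have h2 := h1.eventually (eventually_le_nhds (show (0:ℝ) < 1 by norm_num))
  obtain ⟨n1, hn1⟩ := eventually_atTop.1 h2
  apply bounded_of_ratio _ _ n1
  · intro n hn
    rw [Finset.prod_range_succ, Sm_succ]
    have h3 := hn1 n hn
    set P := ∏ j ∈ range n, ((m0 + 1 + j : ℕ) : ℝ) with hP
    have hPn : 0 ≤ P := Finset.prod_nonneg (fun _ _ => Nat.cast_nonneg _)
    have hA : 0 ≤ P * B ^ (m0 + 1 + n) * r ^ (Sm (fun j => m0 + 1 + j) n) := by positivity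
    calc P * ((m0 + 1 + n : ℕ) : ℝ) * B ^ (m0 + 1 + (n + 1)) * r ^ (Sm (fun j => m0 + 1 + j) n + (m0 + 1 + n))
        = (P * B ^ (m0 + 1 + n) * r ^ (Sm (fun j => m0 + 1 + j) n)) *
            (B * (((m0 + 1 + n : ℕ) : ℝ) * r ^ (m0 + 1 + n))) := by
          rw [pow_add r, ← add_assoc, pow_succ]
          ring
      _ ≤ (P * B ^ (m0 + 1 + n) * r ^ (Sm (fun j => m0 + 1 + j) n)) * 1 :=
          mul_le_mul_of_nonneg_left h3 hA
      _ = _ := mul_one _
  · intro n
    have hPn : 0 ≤ ∏ j ∈ range n, ((m0 + 1 + j : ℕ) : ℝ) := Finset.prod_nonneg (fun _ _ => Nat.cast_nonneg _)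
    positivity

theorem coord_le_dist {d : ℕ} (x y : EuclideanSpace ℝ (Fin d)) (j : Fin d) : |x j - y j| ≤ dist x y := by
  rw [EuclideanSpace.dist_eq, ← Real.dist_eq]
  apply Real.le_sqrt_of_sq_le
  exact Finset.single_le_sum (f := fun j => dist (x j) (y j) ^ 2) (fun j _ => by positivity)
    (Finset.mem_univ j)

theorem tube_subset {D : ℕ} (a v : EuclideanSpace ℝ (Fin (D + 1))) {w : ℝ} (hw : 0 < w) :
    tube a v w ⊆ nearLine (fun j => a j) (fun j => v j) w := by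
  intro x hx
  have h1 : Metric.infDist x (Set.range fun t : ℝ => a + t • v) < w := lt_of_le_of_lt hx (by linarith)
  rw [Metric.infDist_lt_iff (Set.range_nonempty _)] at h1
  obtain ⟨y, ⟨t, rfl⟩, hy⟩ := h1
  refine ⟨t, fun j => ?_⟩
  have h2 := coord_le_dist x (a + t • v) j
  have e : (a + t • v) j = a j + t * v j := by simp
  simp only [] at h2 hy
  rw [e] at h2
  exact h2.trans hy.le

theorem cnt_le_prod {D : ℕ} {m0 : ℕ} {ψ : ℕ → (Fin D → ℕ) → ℕ}
    (hψ : ∀ n u, ψ n u < 2 ^ (m0 + 1 + n))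
    (hpat : open Classical in ∀ n, ∀ a v : Fin (D + 1) → ℝ,
      ((Fintype.piFinset (fun _ : Fin D => range (2 ^ (m0 + 1 + n)))).filter
      (fun u => ∃ t : ℝ, ∀ j, |((pt u (ψ n u) j : ℕ) : ℝ) - (a j + t * v j)| ≤ 2)).card ≤ m0 + 1 + n)
    (a v : Fin (D + 1) → ℝ) (n : ℕ) (w : ℝ) (hw : w ≤ 1 / 2 ^ Sm (fun j => m0 + 1 + j) n) :
    cnt (fun j => m0 + 1 + j) ψ n (nearLine a v w) ≤ ∏ j ∈ range n, (m0 + 1 + j) := by
  induction n with
  | zero => simpa using cnt_zero_le (fun j => m0 + 1 + j) ψ (nearLine a v w)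
  | succ n ih =>
    have h1 := cnt_succ_le_tube (m := fun j => m0 + 1 + j) hψ n (m0 + 1 + n) (hpat n) a v w hw
    have h2 : w ≤ 1 / 2 ^ Sm (fun j => m0 + 1 + j) n := by
      refine hw.trans ?_
      apply one_div_le_one_div_of_le (by positivity)
      apply pow_le_pow_right₀ (by norm_num)
      rw [Sm_succ]; omega
    have h3 := ih h2
    rw [Finset.prod_range_succ]
    calc _ ≤ (m0 + 1 + n) * cnt (fun j => m0 + 1 + j) ψ n (nearLine a v w) := h1
      _ ≤ (m0 + 1 + n) * ∏ j ∈ range n, (m0 + 1 + j) := Nat.mul_le_mul_left _ h3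
      _ = _ := mul_comm _ _

theorem exists_scale {m : ℕ → ℕ} (hm : ∀ n, 1 ≤ m n) {w : ℝ} (hw0 : 0 < w) (hw1 : w ≤ 1) :
    ∃ n, w ≤ 1 / 2 ^ Sm m n ∧ 1 / 2 ^ Sm m (n + 1) < w := by
  classical
  have hex : ∃ k : ℕ, 1 / 2 ^ Sm m k < w := by
    obtain ⟨k, hk⟩ := exists_pow_lt_of_lt_one hw0 (show (1/2 : ℝ) < 1 by norm_num)
    refine ⟨k, lt_of_le_of_lt ?_ hk⟩
    rw [one_div_pow]
    apply one_div_le_one_div_of_le (by positivity)
    exact pow_le_pow_right₀ (by norm_num) (Sm_ge hm k)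
  have h0 : Nat.find hex ≠ 0 := by
    intro h
    have := Nat.find_spec hex
    rw [h] at this
    simp [Sm] at this
    linarith
  obtain ⟨n, hn⟩ := Nat.exists_eq_succ_of_ne_zero h0
  refine ⟨n, ?_, ?_⟩
  · have := Nat.find_min hex (m := n) (by omega)
    exact not_lt.1 this
  · have := Nat.find_spec hex
    rw [hn] at this
    exact this

theorem main (D : ℕ) (hD : 1 ≤ D) : ∃ K : Set (EuclideanSpace ℝ (Fin (D + 1))), IsCompact K ∧
    0 < μH[(D:ℝ)] K ∧ μH[(D:ℝ)] K < ∞ ∧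
    ∀ s : ℝ, 0 ≤ s → s < D → ∃ C : ℝ, 0 ≤ C ∧ ∀ a v : EuclideanSpace ℝ (Fin (D + 1)), ∀ w : ℝ, 0 < w →
      μH[(D:ℝ)] (K ∩ tube a v w) ≤ ENNReal.ofReal (C * w ^ s) := by
  classical
  obtain ⟨m0, hm0⟩ := exists_pattern_nat D
  have hch : ∀ n : ℕ, ∃ ψ : (Fin D → ℕ) → ℕ, (∀ u, ψ u < 2 ^ (m0 + 1 + n)) ∧
    ∀ a v : Fin (D + 1) → ℝ, ((Fintype.piFinset (fun _ : Fin D => range (2 ^ (m0 + 1 + n)))).filter
      (fun u => ∃ t : ℝ, ∀ j, |((pt u (ψ u) j : ℕ) : ℝ) - (a j + t * v j)| ≤ 2)).card ≤ m0 + 1 + n := by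
    intro n
    convert hm0 (m0 + 1 + n) (by omega)
  choose ψ hψ hpat using hch
  set m : ℕ → ℕ := fun j => m0 + 1 + j with hm
  have hm1 : ∀ n, 1 ≤ m n := fun n => by rw [hm]; simp only []; omega
  refine ⟨Kset m ψ, Kset_isCompact m ψ, hausdorff_pos hψ, ?_, ?_⟩
  · have := hausdorff_le hm1 hψ 0 Set.univ
    rw [Set.inter_univ] at this
    exact lt_of_le_of_lt this ENNReal.ofReal_lt_top
  · intro s hs0 hsD
    have hB0 : (0:ℝ) < 2 ^ s := Real.rpow_pos_of_pos (by norm_num) s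
    have hr1 : (2:ℝ) ^ s / 2 ^ D < 1 := by
      rw [div_lt_one (by positivity), ← Real.rpow_natCast]
      exact Real.rpow_lt_rpow_of_exponent_lt (by norm_num) hsD
    obtain ⟨C, hC0, hC⟩ := seq_bounded m0 ((2:ℝ) ^ s) ((2:ℝ) ^ s / 2 ^ D) hB0.le (by positivity) hr1
    have hCB : 0 ≤ C * (D + 1) ^ D := by positivity
    refine ⟨C * (D + 1) ^ D + (cnt m ψ 0 Set.univ : ℝ) * ((D + 1) / 2 ^ Sm m 0) ^ D, by positivity, ?_⟩
    intro a v w hw
    rcases le_or_gt w 1 with hw1 | hw1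
    · obtain ⟨n, hn1, hn2⟩ := exists_scale hm1 hw hw1
      have hsub : Kset m ψ ∩ tube a v w ⊆ Kset m ψ ∩ nearLine (fun j => a j) (fun j => v j) w :=
        Set.inter_subset_inter_right _ (tube_subset a v hw)
      refine (measure_mono hsub).trans ?_
      refine (hausdorff_le hm1 hψ n _).trans ?_
      apply ENNReal.ofReal_le_ofReal
      have h1 := cnt_le_prod hψ (by convert hpat) (fun j => a j) (fun j => v j) n w hn1
      have h2 : (cnt m ψ n (nearLine (fun j => a j) (fun j => v j) w) : ℝ) ≤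
          ∏ j ∈ range n, ((m0 + 1 + j : ℕ) : ℝ) := by exact_mod_cast h1
      have h3 := hC n
      set P := ∏ j ∈ range n, ((m0 + 1 + j : ℕ) : ℝ) with hP
      set B : ℝ := 2 ^ s with hB
      have hws : (B ^ Sm m (n + 1))⁻¹ ≤ w ^ s := by
        have e : (B ^ Sm m (n + 1))⁻¹ = (1 / 2 ^ Sm m (n + 1)) ^ s := by
          rw [one_div, Real.inv_rpow (by positivity), hB, ← Real.rpow_natCast, ← Real.rpow_natCast,
            ← Real.rpow_mul (by norm_num), ← Real.rpow_mul (by norm_num), mul_comm]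
        rw [e]
        exact Real.rpow_le_rpow (by positivity) hn2.le hs0
      have hD1 : (0:ℝ) ≤ (D + 1) ^ D := by positivity
      have h4 : P * ((D + 1) / 2 ^ Sm m n) ^ D ≤ C * (D + 1) ^ D * (B ^ Sm m (n + 1))⁻¹ := by
        rw [← div_eq_mul_inv, le_div_iff₀ (by positivity), Sm_succ, pow_add, div_pow]
        have e : P * (((D:ℝ) + 1) ^ D / (2 ^ Sm m n) ^ D) * (B ^ Sm m n * B ^ m n) =
            (P * B ^ (m0 + 1 + n) * (B / 2 ^ D) ^ Sm m n) * (D + 1) ^ D := by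
          rw [div_pow, ← pow_mul, ← pow_mul, mul_comm D (Sm m n)]
          ring
        rw [e]
        exact mul_le_mul_of_nonneg_right h3 hD1
      calc (cnt m ψ n (nearLine (fun j => a j) (fun j => v j) w) : ℝ) * ((D + 1) / 2 ^ Sm m n) ^ D
          ≤ P * ((D + 1) / 2 ^ Sm m n) ^ D := mul_le_mul_of_nonneg_right h2 (by positivity)
        _ ≤ C * (D + 1) ^ D * (B ^ Sm m (n + 1))⁻¹ := h4
        _ ≤ C * (D + 1) ^ D * w ^ s := mul_le_mul_of_nonneg_left hws hCB
        _ ≤ _ := by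
          apply mul_le_mul_of_nonneg_right _ (by positivity)
          have : 0 ≤ (cnt m ψ 0 Set.univ : ℝ) * ((D + 1) / 2 ^ Sm m 0) ^ D := by positivity
          linarith
    · refine (measure_mono (Set.inter_subset_inter_right _ (Set.subset_univ _))).trans ?_
      refine (hausdorff_le hm1 hψ 0 _).trans ?_
      apply ENNReal.ofReal_le_ofReal
      have h1 : 1 ≤ w ^ s := Real.one_le_rpow hw1.le hs0
      have h2 : 0 ≤ (cnt m ψ 0 Set.univ : ℝ) * ((D + 1) / 2 ^ Sm m 0) ^ D := by positivity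
      nlinarith

/-- **Tube occupancy for all exponents below `d - 1` at once.** For every `d ≥ 2` there is a compact
set `K ⊆ ℝ^d` with `0 < H^{d-1}(K) < ∞` such that for every real `s < d - 1` there is a constant `C`
with `H^{d-1}(K ∩ T) ≤ C w^s` for every tube `T` of width `w > 0` (when `s < 0`, for which no set can
satisfy the bound for wide tubes, the bound is for the tubes of width `w ≤ 1`). -/
theorem result : ∀ d : ℕ, 2 ≤ d → ∃ K : Set (EuclideanSpace ℝ (Fin d)), IsCompact K ∧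
    0 < μH[(d : ℝ) - 1] K ∧ μH[(d : ℝ) - 1] K < ∞ ∧
    ∀ s : ℝ, s < (d : ℝ) - 1 → ∃ C : ℝ, ∀ a v : EuclideanSpace ℝ (Fin d), v ≠ 0 → ∀ w : ℝ, 0 < w →
      (0 ≤ s ∨ w ≤ 1) → μH[(d : ℝ) - 1] (K ∩ tube a v w) ≤ ENNReal.ofReal (C * w ^ s) := by
  intro d hd
  obtain ⟨D, rfl⟩ : ∃ D, d = D + 1 := ⟨d - 1, by omega⟩
  have hD : 1 ≤ D := by omega
  have e : (((D + 1 : ℕ) : ℝ) - 1) = D := by push_cast; ring
  rw [e]
  obtain ⟨K, hK1, hK2, hK3, hK4⟩ := main D hD
  refine ⟨K, hK1, hK2, hK3, ?_⟩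
  intro s hs
  have hDr : (0:ℝ) < D := by exact_mod_cast hD
  obtain ⟨C, hC0, hC⟩ := hK4 (max s 0) (le_max_right _ _) (max_lt hs hDr)
  refine ⟨C, fun a v _ w hw hor => ?_⟩
  refine (hC a v w hw).trans ?_
  apply ENNReal.ofReal_le_ofReal
  apply mul_le_mul_of_nonneg_left _ hC0
  rcases hor with h | h
  · rw [max_eq_left h]
  · exact Real.rpow_le_rpow_of_exponent_ge hw h (le_max_left _ _)

end Pool.Agent.Results.MP_e5cefd_an.TubeSet
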